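import Pool.Agent.H74.BTL.Targets

/-!
Row CRA of the board btl_modules: square summable gradients of functions which are invariant under
an infinite subgroup.
-/

set_option autoImplicit false

open scoped ENNReal RealInnerProductSpace
open Filter Topology

universe u

namespace Pool.Agent.H1.BTL

open Pool.Agent.H74.BTL
open Pool.Agent.H62.LP (Lit)

/-- Corollary A -/
theorem pf_CRA (h1 : T_RKS.{u}) (h2 : T_INJ.{u}) : T_CRA.{u} := by
  intro G _ hG L hL h hh s ξ hξ
  by_contra hne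
  obtain ⟨c, hc, hB⟩ := h2 G ξ hne
  obtain ⟨n₀, hn⟩ := h1 G hG c hc
  obtain ⟨B, -, hlt⟩ := hn L (Or.inl (not_finite_iff_infinite.2 hL)) s
  obtain ⟨Ψ, hΨ⟩ : ∃ Ψ : (G ⧸ L) → G → ℝ, Ψ = fun u x => h (x * u.out) := ⟨_, rfl⟩
  have hΨ' : ∀ g x : G, Ψ (g : G ⧸ L) x = h (x * g) := by
    intro g x
    obtain ⟨l, hl⟩ := QuotientGroup.mk_out_eq_mul L g
    rw [hΨ]
    simp only
    rw [hl, ← mul_assoc]
    exact hh _ _ l.2
  obtain ⟨Φ, hΦ⟩ : ∃ Φ : ((G ⧸ L) →₀ ℝ) →ₗ[ℝ] (G → ℝ), Φ = Finsupp.linearCombination ℝ Ψ :=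
    ⟨_, rfl⟩
  have hv : ∀ g : G, Φ (vL L s g) = fun x => ξ (x * g) := by
    intro g
    rw [hΦ, vL, map_sub, Finsupp.linearCombination_single, Finsupp.linearCombination_single,
      one_smul, one_smul]
    funext x
    rw [Pi.sub_apply, hΨ', hΨ', hξ, ← mul_assoc]
  have hspan : Submodule.span ℝ ((fun (g x : G) => ξ (x * g)) '' (B : Set G)) =
      (Submodule.span ℝ (vL L s '' (B : Set G))).map Φ := by
    rw [Submodule.map_span, Set.image_image]
    congr 1
    exact Set.image_congr fun g _ => (hv g).symm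
  have hfin : Module.Finite ℝ (Submodule.span ℝ (vL L s '' (B : Set G))) :=
    FiniteDimensional.span_of_finite ℝ (B.finite_toSet.image _)
  have hle : Module.finrank ℝ (Submodule.span ℝ ((fun (g x : G) => ξ (x * g)) '' (B : Set G))) ≤
      rk L s B := by
    rw [hspan]
    exact Submodule.finrank_map_le Φ _
  have hle' : (Module.finrank ℝ (Submodule.span ℝ
      ((fun (g x : G) => ξ (x * g)) '' (B : Set G))) : ℝ) ≤ rk L s B := by exact_mod_cast hle
  linarith [hB B]

end Pool.Agent.H1.BTL
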