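import Pool.Agent.H74.BTL.Targets

/-!
Row GRD of the board btl_modules: the greedy algorithm.
-/

set_option autoImplicit false

universe u

namespace Pool.Agent.H1.BTL

open Pool.Agent.H74.BTL

/-- extension to a maximal independent set -/
theorem ext_max {β M : Type u} [AddCommGroup M] [Module ℝ M] (v : β → M) (F₀ A : Finset β)
    (hF : LinearIndepOn ℝ v (F₀ : Set β)) (hA : F₀ ⊆ A) :
    ∃ F : Finset β, F₀ ⊆ F ∧ F ⊆ A ∧ LinearIndepOn ℝ v (F : Set β) ∧
      Module.finrank ℝ (Submodule.span ℝ (v '' (A : Set β))) = F.card := by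
  classical
  obtain ⟨b, hb1, hb2, hb3, hb4⟩ := exists_linearIndepOn_extension hF (Finset.coe_subset.2 hA)
  have hfin : b.Finite := A.finite_toSet.subset hb1
  obtain ⟨F, rfl⟩ : ∃ F : Finset β, (F : Set β) = b := ⟨hfin.toFinset, hfin.coe_toFinset⟩
  refine ⟨F, Finset.coe_subset.1 hb2, Finset.coe_subset.1 hb1, hb4, ?_⟩
  have h1 : Submodule.span ℝ (v '' (A : Set β)) = Submodule.span ℝ (v '' (F : Set β)) :=
    le_antisymm (Submodule.span_le.2 hb3) (Submodule.span_mono (Set.image_mono hb1))
  rw [h1]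
  have h2 : v '' (F : Set β) = Set.range fun g : F => v g := by
    ext x
    constructor
    · rintro ⟨g, hg, rfl⟩
      exact ⟨⟨g, hg⟩, rfl⟩
    · rintro ⟨g, rfl⟩
      exact ⟨g.1, g.2, rfl⟩
  rw [h2]
  have h3 : LinearIndependent ℝ fun g : F => v g := hb4
  rw [finrank_span_eq_card h3, Fintype.card_coe]

/-- the greedy algorithm -/
theorem pf_GRD : T_GRD.{u} := by
  classical
  intro β M _ _ v c hc
  rcases le_or_gt c 0 with hc0 | hc0
  · intro A w
    refine ⟨∅, Finset.empty_subset _, ?_, ?_⟩
    · exact linearIndependent_empty_type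
    · rw [Finset.sum_empty]
      exact mul_nonpos_of_nonpos_of_nonneg hc0 (Finset.sum_nonneg fun g _ => Nat.cast_nonneg _)
  · have key : ∀ n : ℕ, ∀ (A : Finset β) (w : β → ℕ), ∑ g ∈ A, w g ≤ n → ∃ F : Finset β, F ⊆ A ∧
        LinearIndepOn ℝ v (F : Set β) ∧ c * ∑ g ∈ A, (w g : ℝ) ≤ ∑ g ∈ F, (w g : ℝ) := by
      intro n
      induction n with
      | zero =>
        intro A w h
        refine ⟨∅, Finset.empty_subset _, ?_, ?_⟩
        · rw [Finset.coe_empty]
          exact linearIndepOn_empty ℝ v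
        · have h1 : ∑ g ∈ A, w g = 0 := by omega
          have h2 : ∑ g ∈ A, (w g : ℝ) = 0 := by exact_mod_cast h1
          rw [h2, mul_zero, Finset.sum_empty]
      | succ n ih =>
        intro A w h
        obtain ⟨A', hA'⟩ : ∃ A', A' = A.filter fun g => 0 < w g := ⟨_, rfl⟩
        have hsub : A' ⊆ A := hA' ▸ Finset.filter_subset _ _
        have hw : ∀ g ∈ A', w g = (w g - 1) + 1 := by
          intro g hg
          rw [hA', Finset.mem_filter] at hg
          omega
        have hsum : ∑ g ∈ A, w g = ∑ g ∈ A', (w g - 1) + A'.card := by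
          have h1 : ∑ g ∈ A, w g = ∑ g ∈ A', w g := by
            symm
            refine Finset.sum_subset hsub fun g hg hg' => ?_
            rw [hA', Finset.mem_filter, not_and] at hg'
            have := hg' hg
            omega
          rw [h1, Finset.sum_congr rfl hw, Finset.sum_add_distrib, Finset.card_eq_sum_ones]
        rcases A'.eq_empty_or_nonempty with hemp | hne
        · refine ⟨∅, Finset.empty_subset _, ?_, ?_⟩
          · rw [Finset.coe_empty]
            exact linearIndepOn_empty ℝ v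
          · have h1 : ∑ g ∈ A, w g = 0 := by rw [hsum, hemp]; simp
            have h2 : ∑ g ∈ A, (w g : ℝ) = 0 := by exact_mod_cast h1
            rw [h2, mul_zero, Finset.sum_empty]
        · have hcard : 0 < A'.card := hne.card_pos
          obtain ⟨F₀, hF1, hF2, hF3⟩ := ih A' (fun g => w g - 1) (by omega)
          obtain ⟨F, h1, h2, h3, h4⟩ := ext_max v F₀ A' hF2 hF1
          refine ⟨F, h2.trans hsub, h3, ?_⟩
          have h5 := hc A'
          rw [h4] at h5
          have h6 : ∑ g ∈ A, (w g : ℝ) = ∑ g ∈ A', ((w g - 1 : ℕ) : ℝ) + A'.card := by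
            exact_mod_cast hsum
          have h7 : ∑ g ∈ F, (w g : ℝ) = ∑ g ∈ F, ((w g - 1 : ℕ) : ℝ) + F.card := by
            have h8 : ∑ g ∈ F, w g = ∑ g ∈ F, (w g - 1) + F.card := by
              rw [Finset.sum_congr rfl fun g hg => hw g (h2 hg), Finset.sum_add_distrib,
                Finset.card_eq_sum_ones]
            exact_mod_cast h8
          have h9 : ∑ g ∈ F₀, ((w g - 1 : ℕ) : ℝ) ≤ ∑ g ∈ F, ((w g - 1 : ℕ) : ℝ) :=
            Finset.sum_le_sum_of_subset_of_nonneg h1 fun g _ _ => Nat.cast_nonneg _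
          rw [h6, h7, mul_add]
          linarith
    intro A w
    obtain ⟨F, h1, h2, h3⟩ := key _ A w le_rfl
    exact ⟨F, h1, h2, h3⟩

end Pool.Agent.H1.BTL
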