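import Pool.Agent.H74.BTL.Targets
import Pool.Agent.H62.LP.Hall

/-!
Row LIT of the board btl_modules: dense finite subgraphs.
-/

set_option autoImplicit false

open scoped ENNReal

universe u

namespace Pool.Agent.H1.BTL

open Pool.Agent.H74.BTL
open Pool.Agent.H62.LP (Lit nE dense_of_lit_lt)

open Classical in
/-- dense finite subgraphs -/
theorem pf_LIT : T_LIT.{u} := by
  intro G _ hG
  have hp : 0 < (Lit G).toReal + 1 := by
    have := ENNReal.toReal_nonneg (a := Lit G)
    linarith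
  have hlt : Lit G < ENNReal.ofReal ((Lit G).toReal + 1) := by
    rw [ENNReal.ofReal_add ENNReal.toReal_nonneg zero_le_one, ENNReal.ofReal_toReal hG.ne,
      ENNReal.ofReal_one]
    exact ENNReal.lt_add_right hG.ne one_ne_zero
  obtain ⟨c, hc, h⟩ := dense_of_lit_lt ((Lit G).toReal + 1) hp hlt
  refine ⟨c, hc, (Lit G).toReal + 1, hp, fun T hT => ?_⟩
  obtain ⟨X, Y, hXY, hle⟩ := h T hT
  refine ⟨X ∪ Y, ?_, ?_⟩
  · rw [Finset.nonempty_iff_ne_empty]
    intro he
    rw [Finset.union_eq_empty] at he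
    rw [he.1, he.2] at hXY
    simp at hXY
  · have h1 : ((X ∪ Y).card : ℝ) ≤ (X.card : ℝ) + Y.card := by
      exact_mod_cast Finset.card_union_le X Y
    have h2 : ∑ s ∈ T, nE X Y s ≤ (((X ∪ Y) ×ˢ T).filter fun q => q.1 * q.2 ∈ X ∪ Y).card := by
      have h3 : (((X ∪ Y) ×ˢ T).filter fun q => q.1 * q.2 ∈ X ∪ Y).card =
          ∑ s ∈ T, ((X ∪ Y).filter fun x => x * s ∈ X ∪ Y).card := by
        simp only [Finset.card_filter]
        rw [Finset.sum_product_right]
      rw [h3]
      refine Finset.sum_le_sum fun s _ => ?_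
      unfold nE
      refine Finset.card_le_card fun x hx => ?_
      rw [Finset.mem_filter] at hx ⊢
      exact ⟨Finset.mem_union_left _ hx.1, Finset.mem_union_right _ hx.2⟩
    have h4 : (∑ s ∈ T, (nE X Y s : ℝ)) ≤
        ((((X ∪ Y) ×ˢ T).filter fun q => q.1 * q.2 ∈ X ∪ Y).card : ℝ) := by exact_mod_cast h2
    refine le_trans ?_ (hle.trans h4)
    exact mul_le_mul_of_nonneg_left h1 (by positivity)

end Pool.Agent.H1.BTL
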