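import Pool.Agent.H74.BTL.Targets

/-!
Row RNK of the board btl_modules: rank and nullity.
-/

set_option autoImplicit false

open scoped ENNReal RealInnerProductSpace
open Filter Topology

universe u

namespace Pool.Agent.H1.BTL

open Pool.Agent.H74.BTL

/-- rank and nullity -/
theorem pf_RNK (h1 : T_POW.{u}) (h2 : T_MEA.{u}) : T_RNK.{u} := by
  intro G _ I J _ _ S hS
  obtain ⟨c, hc⟩ : ∃ c : ℝ, c = 1 / (‖S‖ ^ 2 + 1) := ⟨_, rfl⟩
  have hc0 : 0 < c := by rw [hc]; positivity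
  have hc1 : c * ‖S‖ ^ 2 ≤ 1 := by
    rw [hc, one_div, inv_mul_le_iff₀ (by positivity)]
    linarith
  have hn : ‖ContinuousLinearMap.adjoint S‖ = ‖S‖ := LinearIsometryEquiv.norm_map _ S
  have hc2 : c * ‖ContinuousLinearMap.adjoint S‖ ^ 2 ≤ 1 := by rw [hn]; exact hc1
  have a1 := h2 G I J S c hc0 hc1
  have a2 := h2 G J I (ContinuousLinearMap.adjoint S) c hc0 hc2
  rw [ContinuousLinearMap.adjoint_adjoint] at a2
  obtain ⟨p, hp⟩ : ∃ p : ℕ → ℝ, p = fun k => ∑ i, ⟪dl ((1 : G), i),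
      ((1 - c • (ContinuousLinearMap.adjoint S ∘L S)) ^ k) (dl ((1 : G), i))⟫ := ⟨_, rfl⟩
  obtain ⟨q, hq⟩ : ∃ q : ℕ → ℝ, q = fun k => ∑ j, ⟪dl ((1 : G), j),
      ((1 - c • (S ∘L ContinuousLinearMap.adjoint S)) ^ k) (dl ((1 : G), j))⟫ := ⟨_, rfl⟩
  have hpq : ∀ k, p k - (Fintype.card I : ℝ) = q k - Fintype.card J := by
    intro k
    rw [hp, hq]
    exact h1 G I J S c hS k
  have b1 : Tendsto (fun n : ℕ => (n : ℝ)⁻¹ * ∑ k ∈ Finset.range n, p k - (Fintype.card I : ℝ)) atTop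
      (𝓝 (dm (kr S) - Fintype.card I)) := by
    rw [hp]
    exact a1.sub_const _
  have b2 : Tendsto (fun n : ℕ => (n : ℝ)⁻¹ * ∑ k ∈ Finset.range n, q k - (Fintype.card J : ℝ)) atTop
      (𝓝 (dm (kr (ContinuousLinearMap.adjoint S)) - Fintype.card J)) := by
    rw [hq]
    exact a2.sub_const _
  have b3 : (fun n : ℕ => (n : ℝ)⁻¹ * ∑ k ∈ Finset.range n, p k - (Fintype.card I : ℝ)) =ᶠ[atTop]
      fun n : ℕ => (n : ℝ)⁻¹ * ∑ k ∈ Finset.range n, q k - (Fintype.card J : ℝ) := by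
    filter_upwards [eventually_gt_atTop 0] with n hn
    have hn0 : (n : ℝ) ≠ 0 := by exact_mod_cast hn.ne'
    have e1 : ∑ k ∈ Finset.range n, p k =
        ∑ k ∈ Finset.range n, q k + n * ((Fintype.card I : ℝ) - Fintype.card J) := by
      have e2 : ∀ k ∈ Finset.range n, p k = q k + ((Fintype.card I : ℝ) - Fintype.card J) :=
        fun k _ => by linarith [hpq k]
      rw [Finset.sum_congr rfl e2, Finset.sum_add_distrib, Finset.sum_const, Finset.card_range,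
        nsmul_eq_mul]
    rw [e1, mul_add, inv_mul_cancel_left₀ hn0]
    ring
  have b4 := tendsto_nhds_unique (b1.congr' b3) b2
  linarith

end Pool.Agent.H1.BTL
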